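import Pool.Agent.helper70.GB.All

/-!
# Unimodular rows of length `d + 1` over monoid algebras

For every Noetherian local ring `R` of dimension `d ≥ 2` in which `d!` is a unit and every
commutative cancellative monoid `M` without nonzero invertible elements (not necessarily finitely
generated), every unimodular row of length `d + 1` over `R[M]` is the first row of a matrix of
determinant one.
-/

namespace Pool.Agent.Results.MP_7933bc_al.UnimodularRows

/-- `Um_{d+1}(R[M]) = e₁ SL_{d+1}(R[M])`. -/
theorem result.{u, v} : ∀ (R : Type u) (M : Type v) [CommRing R] [IsLocalRing R]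
    [IsNoetherianRing R] [AddCancelCommMonoid M] (d : ℕ), 2 ≤ d → ringKrullDim R = d →
    IsUnit ((d.factorial : ℕ) : R) → (∀ a b : M, a + b = 0 → a = 0) →
    {v : Fin (d + 1) → AddMonoidAlgebra R M | Ideal.span (Set.range v) = ⊤} =
      {v | ∃ g : Matrix.SpecialLinearGroup (Fin (d + 1)) (AddMonoidAlgebra R M),
        (g : Matrix (Fin (d + 1)) (Fin (d + 1)) (AddMonoidAlgebra R M)) 0 = v} := by
  intro R M _ _ _ _ d hd hR hfac hM
  exact GB.Final GB.rao_all.{max u v} GB.fi_all.{max u v} R M d hd hR hfac hM

end Pool.Agent.Results.MP_7933bc_al.UnimodularRows
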